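import Mathlib

set_option autoImplicit false
open Finset

namespace Pool.Agent.Lib_helper99.Bog

variable {A G k : Type*} [AddCommMonoid G] [Field k] (v : A → G)

/-- replace two elements of a multiset by two elements with the same sum of images -/
def MStep (s t : Multiset A) : Prop :=
  ∃ (a b c d : A) (m : Multiset A), s = a ::ₘ b ::ₘ m ∧ t = c ::ₘ d ::ₘ m ∧ v a + v b = v c + v d

lemma monomial_eq_prod (d : A →₀ ℕ) :
    (MvPolynomial.monomial d (1 : k)) = ((Finsupp.toMultiset d).map MvPolynomial.X).prod := by
  induction d using Finsupp.induction_linear with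
  | zero => simp
  | add f g hf hg =>
    rw [Finsupp.toMultiset_add, Multiset.map_add, Multiset.prod_add, ← hf, ← hg,
      MvPolynomial.monomial_mul, one_mul]
  | single a n =>
    rw [Finsupp.toMultiset_single, Multiset.map_nsmul, Multiset.map_singleton,
      Multiset.prod_nsmul, Multiset.prod_singleton, MvPolynomial.X_pow_eq_monomial]

variable {v}

lemma phi_prod (φ : MvPolynomial A k →ₐ[k] AddMonoidAlgebra k G)
    (hφ : ∀ u, φ (MvPolynomial.X u) = AddMonoidAlgebra.single (v u) 1) (s : Multiset A) :
    φ ((s.map MvPolynomial.X).prod) = AddMonoidAlgebra.single ((s.map v).sum) 1 := by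
  induction s using Multiset.induction_on with
  | empty =>
    rw [Multiset.map_zero, Multiset.prod_zero, map_one, Multiset.map_zero, Multiset.sum_zero,
      AddMonoidAlgebra.one_def]
  | cons a s ih =>
    rw [Multiset.map_cons, Multiset.prod_cons, map_mul, ih, hφ, Multiset.map_cons,
      Multiset.sum_cons, AddMonoidAlgebra.single_mul_single, one_mul]

lemma phi_monomial (φ : MvPolynomial A k →ₐ[k] AddMonoidAlgebra k G)
    (hφ : ∀ u, φ (MvPolynomial.X u) = AddMonoidAlgebra.single (v u) 1) (d : A →₀ ℕ) (c : k) :
    φ (MvPolynomial.monomial d c) =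
      AddMonoidAlgebra.single (((Finsupp.toMultiset d).map v).sum) c := by
  have : (MvPolynomial.monomial d c : MvPolynomial A k) = c • MvPolynomial.monomial d (1 : k) := by
    rw [MvPolynomial.smul_monomial, smul_eq_mul, mul_one]
  rw [this, map_smul, monomial_eq_prod, phi_prod φ hφ, AddMonoidAlgebra.smul_single, smul_eq_mul,
    mul_one]

theorem ker_eq_span (φ : MvPolynomial A k →ₐ[k] AddMonoidAlgebra k G)
    (hφ : ∀ u, φ (MvPolynomial.X u) = AddMonoidAlgebra.single (v u) 1)
    (h : ∀ s t : Multiset A, (s.map v).sum = (t.map v).sum → Relation.ReflTransGen (MStep v) s t) :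
    RingHom.ker φ = Ideal.span {f | f ∈ RingHom.ker φ ∧ f.IsHomogeneous 2} := by
  classical
  set J := Ideal.span {f | f ∈ RingHom.ker φ ∧ f.IsHomogeneous 2} with hJ
  apply le_antisymm
  · -- the quotient map identifies monomials with the same image
    have key : ∀ s t : Multiset A, (s.map v).sum = (t.map v).sum →
        Ideal.Quotient.mk J ((s.map MvPolynomial.X).prod) =
          Ideal.Quotient.mk J ((t.map MvPolynomial.X).prod) := by
      intro s t hst
      have hc := h s t hst
      clear hst
      induction hc with
      | refl => rfl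
      | tail _ hs ih =>
        rw [ih]
        obtain ⟨a, b, c, d, m, rfl, rfl, he⟩ := hs
        rw [Ideal.Quotient.mk_eq_mk_iff_sub_mem]
        have h1 : (Multiset.map (MvPolynomial.X (R := k)) (a ::ₘ b ::ₘ m)).prod -
            (Multiset.map (MvPolynomial.X (R := k)) (c ::ₘ d ::ₘ m)).prod =
            (Multiset.map (MvPolynomial.X (R := k)) m).prod *
              (MvPolynomial.X a * MvPolynomial.X b - MvPolynomial.X c * MvPolynomial.X d) := by
          simp only [Multiset.map_cons, Multiset.prod_cons]
          ring
        rw [h1]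
        apply Ideal.mul_mem_left
        apply Ideal.subset_span
        refine ⟨?_, ?_⟩
        · rw [RingHom.mem_ker, map_sub, map_mul, map_mul, hφ, hφ, hφ, hφ,
            AddMonoidAlgebra.single_mul_single, AddMonoidAlgebra.single_mul_single, he, sub_self]
        · apply MvPolynomial.IsHomogeneous.sub
          · exact (MvPolynomial.isHomogeneous_X k a).mul (MvPolynomial.isHomogeneous_X k b)
          · exact (MvPolynomial.isHomogeneous_X k c).mul (MvPolynomial.isHomogeneous_X k d)
    intro p hp
    rw [RingHom.mem_ker] at hp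
    rw [← Ideal.Quotient.eq_zero_iff_mem]
    let w : (A →₀ ℕ) → G := fun d => ((Finsupp.toMultiset d).map v).sum
    have hp1 : p = ∑ d ∈ p.support, MvPolynomial.monomial d (p.coeff d) := p.as_sum
    have hcoef : ∀ g : G, ∑ d ∈ p.support with w d = g, p.coeff d = 0 := by
      intro g
      have h1 : (φ p).coeff g = 0 := by rw [hp]; rfl
      rw [hp1, map_sum, AddMonoidAlgebra.coeff_sum, Finsupp.finsetSum_apply] at h1
      rw [Finset.sum_filter]
      refine Eq.trans ?_ h1
      apply Finset.sum_congr rfl
      intro d _
      rw [phi_monomial φ hφ, AddMonoidAlgebra.coeff_single, Finsupp.single_apply]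
    have hmk : ∀ d : A →₀ ℕ, Ideal.Quotient.mk J (MvPolynomial.monomial d (p.coeff d)) =
        Ideal.Quotient.mk J (MvPolynomial.C (p.coeff d)) *
          Ideal.Quotient.mk J (((Finsupp.toMultiset d).map MvPolynomial.X).prod) := by
      intro d
      rw [← monomial_eq_prod, ← map_mul, MvPolynomial.C_mul_monomial, mul_one]
    rw [hp1, map_sum]
    rw [← Finset.sum_fiberwise_of_maps_to (s := p.support) (t := p.support.image w) (g := w)
      (fun d hd => Finset.mem_image_of_mem w hd)]
    apply Finset.sum_eq_zero
    intro g hg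
    obtain ⟨d₀, hd₀, rfl⟩ := Finset.mem_image.1 hg
    have : ∀ d ∈ p.support.filter (fun d => w d = w d₀),
        Ideal.Quotient.mk J (MvPolynomial.monomial d (p.coeff d)) =
        Ideal.Quotient.mk J (MvPolynomial.C (p.coeff d)) *
          Ideal.Quotient.mk J (((Finsupp.toMultiset d₀).map MvPolynomial.X).prod) := by
      intro d hd
      rw [hmk]
      congr 1
      exact key _ _ (Finset.mem_filter.1 hd).2
    rw [Finset.sum_congr rfl this, ← Finset.sum_mul, ← map_sum, ← map_sum, hcoef, map_zero,
      map_zero, zero_mul]
  · rw [hJ, Ideal.span_le]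
    exact fun f hf => hf.1

end Pool.Agent.Lib_helper99.Bog
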